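import Pool.Agent.Helper986.NilAvg.Main

/-!
# Nilsequence averages do not control mean convergence of double averages

`result`: there is an integer sequence `a 1, a 2, …` along which the averages of every 2-step
nilsequence converge, an invertible measure preserving system on a standard Borel probability
space and functions `f, g` of modulus one for which the averages of
`f (T ^ (a n) x) * g (T ^ (2 a n) x)` do not converge in `L²`.
-/

set_option autoImplicit false

namespace Pool.Agent.Results.MP_fc4783_an.DoubleAverages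

open Filter Topology MeasureTheory

theorem sum_shift {M : Type*} [AddCommMonoid M] (u : ℕ → M) (K : ℕ) :
    ∑ n ∈ Finset.Icc 1 K, u (n - 1) = ∑ n ∈ Finset.range K, u n := by
  induction K with
  | zero => simp
  | succ K ih => rw [Finset.sum_Icc_succ_top (by omega), Finset.sum_range_succ, ih]; rfl

universe u

/-- **Theorem.** There are an integer sequence `(a n)`, `n ≥ 1`, along which the averages of every
2-step nilsequence converge, an invertible measure preserving system and `f, g` of modulus one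
such that `K⁻¹ ∑_{n = 1}^{K} T ^ (a n) f * T ^ (2 a n) g` does not converge in `L²`. -/
theorem result :
    ∃ a : ℕ → ℤ,
      (∀ N : ℤ → ℂ, Pool.NilAvg.IsNilseq.{u} N → ∃ L : ℂ,
        Tendsto (fun K : ℕ => (K : ℂ)⁻¹ * ∑ n ∈ Finset.Icc 1 K, N (a n)) atTop (𝓝 L)) ∧
      ∃ (X : Type) (_ : MeasurableSpace X) (_ : StandardBorelSpace X) (μ : Measure X)
        (_ : IsProbabilityMeasure μ) (T : X ≃ᵐ X) (f g : X → ℂ),
        MeasurePreserving T μ μ ∧ Measurable f ∧ Measurable g ∧
        (∀ x, ‖f x‖ = 1) ∧ (∀ x, ‖g x‖ = 1) ∧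
        ¬ ∃ φ : X → ℂ, MemLp φ 2 μ ∧
          Tendsto (fun K : ℕ => eLpNorm (fun x => (K : ℂ)⁻¹ * ∑ n ∈ Finset.Icc 1 K,
            f ((T.toEquiv ^ (a n) : Equiv.Perm X) x) *
              g ((T.toEquiv ^ (2 * a n) : Equiv.Perm X) x) - φ x) 2 μ) atTop (𝓝 0) := by
  obtain ⟨a, h1, X, i1, i2, μ, i3, T, f, g, hT, hf, hg, nf, ng, h2⟩ := Pool.NilAvg.main.{u}
  refine ⟨fun n => a (n - 1), ?_, X, i1, i2, μ, i3, T, f, g, hT, hf, hg, nf, ng, ?_⟩
  · intro N hN
    obtain ⟨L, hL⟩ := h1 N hN
    refine ⟨L, hL.congr fun K => ?_⟩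
    rw [sum_shift (fun n => N (a n)) K]
  · rintro ⟨φ, hφ, hlim⟩
    refine h2 ⟨φ, hφ, hlim.congr fun K => ?_⟩
    congr 1
    funext x
    rw [sum_shift (fun n => f ((T.toEquiv ^ (a n) : Equiv.Perm X) x) *
      g ((T.toEquiv ^ (2 * a n) : Equiv.Perm X) x)) K]

end Pool.Agent.Results.MP_fc4783_an.DoubleAverages
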